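import Mathlib
import Pool.Agent.H62.Per.Defs

/-! Distinct perimeters (MP_588c6d_co): modules PARAM and TWO. -/

set_option autoImplicit false

open Finset

namespace Pool.Agent.H30.Per

open Pool.Agent.H62.Per

theorem dd_sq (p q : Pl) : dd p q ^ 2 = (p.1 - q.1) ^ 2 + (p.2 - q.2) ^ 2 :=
  Real.sq_sqrt (by positivity)

theorem dd_nonneg (p q : Pl) : 0 ≤ dd p q := Real.sqrt_nonneg _

theorem dd_eq_of_sq {p q : Pl} {r : ℝ} (hr : 0 ≤ r)
    (h : (p.1 - q.1) ^ 2 + (p.2 - q.2) ^ 2 = r ^ 2) : dd p q = r := by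
  unfold dd
  rw [h, Real.sqrt_sq hr]

/-- frame data of a nondegenerate branch -/
structure Fr (p q : Pl) (h : ℝ) where
  L : ℝ
  a : ℝ
  b : ℝ
  ec : ℝ
  es : ℝ
  hL : 0 < L
  hb : 0 < b
  ha : a ≠ 0
  hh : h = 2 * a
  hLab : L ^ 2 = 4 * (a ^ 2 + b ^ 2)
  he : ec ^ 2 + es ^ 2 = 1
  hv1 : q.1 - p.1 = L * ec
  hv2 : q.2 - p.2 = L * es
  haL : |2 * a| < L
  hLd : dd p q = L

theorem exists_fr (p q : Pl) (h : ℝ) (hnd : ND p q h) : Nonempty (Fr p q h) := by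
  obtain ⟨h0, hlt⟩ := hnd
  have hL : 0 < dd p q := lt_of_le_of_lt (abs_nonneg h) hlt
  have hsq : h ^ 2 < dd p q ^ 2 := by
    rw [← sq_abs h]
    exact pow_lt_pow_left₀ hlt (abs_nonneg h) two_ne_zero
  have hne : dd p q ≠ 0 := hL.ne'
  have hd := dd_sq p q
  refine ⟨⟨dd p q, h / 2, Real.sqrt (dd p q ^ 2 - h ^ 2) / 2, (q.1 - p.1) / dd p q,
    (q.2 - p.2) / dd p q, hL, ?_, ?_, ?_, ?_, ?_, ?_, ?_, ?_, rfl⟩⟩
  · have : 0 < Real.sqrt (dd p q ^ 2 - h ^ 2) := Real.sqrt_pos.mpr (by linarith)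
    positivity
  · exact div_ne_zero h0 two_ne_zero
  · ring
  · have : Real.sqrt (dd p q ^ 2 - h ^ 2) ^ 2 = dd p q ^ 2 - h ^ 2 :=
      Real.sq_sqrt (by linarith)
    nlinarith [this]
  · rw [div_pow, div_pow, ← add_div, div_eq_one_iff_eq (by positivity), hd]
    ring
  · field_simp
  · field_simp
  · rw [show 2 * (h / 2) = h by ring]
    exact hlt

namespace Fr

variable {p q : Pl} {h : ℝ} (F : Fr p q h)

/-- centre -/
noncomputable def c0 (_ : Fr p q h) : Pl := ((p.1 + q.1) / 2, (p.2 + q.2) / 2)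

noncomputable def c1 : Pl := ((F.a * F.ec - F.b * F.es) / 2, (F.a * F.es + F.b * F.ec) / 2)

noncomputable def c2 : Pl := ((F.a * F.ec + F.b * F.es) / 2, (F.a * F.es - F.b * F.ec) / 2)

/-- first coordinate in the frame -/
noncomputable def al (x : Pl) : ℝ := (x.1 - F.c0.1) * F.ec + (x.2 - F.c0.2) * F.es

noncomputable def be (x : Pl) : ℝ := -(x.1 - F.c0.1) * F.es + (x.2 - F.c0.2) * F.ec

noncomputable def ze (x : Pl) : ℝ := F.al x / F.a + F.be x / F.b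

theorem det_ne : F.c1.1 * F.c2.2 - F.c1.2 * F.c2.1 ≠ 0 := by
  have h1 : F.c1.1 * F.c2.2 - F.c1.2 * F.c2.1 = -(F.a * F.b * (F.ec ^ 2 + F.es ^ 2)) / 2 := by
    simp only [c1, c2]
    ring
  rw [h1, F.he]
  have := mul_ne_zero F.ha F.hb.ne'
  intro h2
  apply this
  linarith

theorem coord1 (x : Pl) : x.1 = F.c0.1 + F.al x * F.ec - F.be x * F.es := by
  have := F.he
  simp only [al, be]
  linear_combination (F.c0.1 - x.1) * this

theorem coord2 (x : Pl) : x.2 = F.c0.2 + F.al x * F.es + F.be x * F.ec := by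
  have := F.he
  simp only [al, be]
  linear_combination (F.c0.2 - x.2) * this

theorem p_coord1 : p.1 = F.c0.1 - F.L / 2 * F.ec := by
  have := F.hv1
  simp only [c0]
  linarith

theorem p_coord2 : p.2 = F.c0.2 - F.L / 2 * F.es := by
  have := F.hv2
  simp only [c0]
  linarith

theorem q_coord1 : q.1 = F.c0.1 + F.L / 2 * F.ec := by
  have := F.hv1
  simp only [c0]
  linarith

theorem q_coord2 : q.2 = F.c0.2 + F.L / 2 * F.es := by
  have := F.hv2
  simp only [c0]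
  linarith

theorem ddp_sq (x : Pl) : dd p x ^ 2 = (F.al x + F.L / 2) ^ 2 + F.be x ^ 2 := by
  rw [dd_sq, F.coord1 x, F.coord2 x, F.p_coord1, F.p_coord2]
  linear_combination ((F.al x + F.L / 2) ^ 2 + F.be x ^ 2) * F.he

theorem ddq_sq (x : Pl) : dd q x ^ 2 = (F.al x - F.L / 2) ^ 2 + F.be x ^ 2 := by
  rw [dd_sq, F.coord1 x, F.coord2 x, F.q_coord1, F.q_coord2]
  linear_combination ((F.al x - F.L / 2) ^ 2 + F.be x ^ 2) * F.he

/-- a point of the branch: coordinates -/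
theorem on_branch (x : Pl) (hx : dd p x - dd q x = h) :
    0 < F.al x / F.a ∧ (F.al x / F.a) ^ 2 - (F.be x / F.b) ^ 2 = 1 := by
  have h1 := F.ddp_sq x
  have h2 := F.ddq_sq x
  have hp := dd_nonneg p x
  have hq := dd_nonneg q x
  have ha := F.ha
  have hb := F.hb
  have hL := F.hL
  rw [F.hh] at hx
  -- sum
  have h3 : (dd p x + dd q x) * (2 * F.a) = 2 * F.al x * F.L := by
    rw [← hx]
    nlinarith
  have h4 : dd p x + dd q x = F.L * (F.al x / F.a) := by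
    field_simp
    linarith
  have h5 : dd p x = F.L / 2 * (F.al x / F.a) + F.a := by linarith
  set t := F.al x / F.a with ht
  have hal : F.al x = t * F.a := by rw [ht]; field_simp
  have hbe : F.be x = (F.be x / F.b) * F.b := by field_simp
  set s := F.be x / F.b with hs
  rw [h5, hal, hbe] at h1
  have hLab := F.hLab
  have h6 : F.b ^ 2 * (t ^ 2 - s ^ 2 - 1) = 0 := by
    linear_combination h1 + (1 / 4 - t ^ 2 / 4) * hLab
  have h7 : t ^ 2 - s ^ 2 - 1 = 0 := by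
    rcases mul_eq_zero.mp h6 with h | h
    · exact absurd h (by positivity)
    · exact h
  refine ⟨?_, by linarith⟩
  have h8 : 0 ≤ F.L * t := by rw [← h4]; positivity
  have h9 : 0 ≤ t := nonneg_of_mul_nonneg_right h8 hL
  rcases h9.lt_or_eq with h10 | h10
  · exact h10
  · exfalso
    rw [← h10] at h7
    nlinarith [sq_nonneg s]

theorem ze_spec (x : Pl) (hx : dd p x - dd q x = h) :
    0 < F.ze x ∧ x = F.c0 + F.ze x • F.c1 + (F.ze x)⁻¹ • F.c2 := by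
  obtain ⟨h1, h2⟩ := F.on_branch x hx
  have ha := F.ha
  have hb := F.hb
  have hal : F.al x = (F.al x / F.a) * F.a := by field_simp
  have hbe : F.be x = (F.be x / F.b) * F.b := by field_simp
  have hze : F.ze x = F.al x / F.a + F.be x / F.b := rfl
  set t := F.al x / F.a with ht
  set s := F.be x / F.b with hs
  have hmul : (t + s) * (t - s) = 1 := by linear_combination h2
  have hpos : 0 < t + s := by
    by_contra hcon
    push Not at hcon
    have h3 : 0 < t - s := by linarith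
    nlinarith
  have hinv : (t + s)⁻¹ = t - s := by
    rw [inv_eq_iff_eq_inv]
    exact eq_inv_of_mul_eq_one_left hmul
  rw [hze]
  refine ⟨hpos, ?_⟩
  rw [hinv]
  ext
  · simp only [Prod.fst_add, Prod.smul_fst, smul_eq_mul, c1, c2]
    rw [F.coord1 x, hal, hbe]
    ring
  · simp only [Prod.snd_add, Prod.smul_snd, smul_eq_mul, c1, c2]
    rw [F.coord2 x, hal, hbe]
    ring

theorem param (z : ℝ) (hz : 0 < z) :
    dd p (F.c0 + z • F.c1 + z⁻¹ • F.c2) - dd q (F.c0 + z • F.c1 + z⁻¹ • F.c2) = h := by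
  set ch := (z + z⁻¹) / 2 with hch
  set sh := (z - z⁻¹) / 2 with hsh
  have hzi : z * z⁻¹ = 1 := mul_inv_cancel₀ hz.ne'
  have hcs : ch ^ 2 - sh ^ 2 = 1 := by
    rw [hch, hsh]
    linear_combination hzi
  have hzi0 : 0 < z⁻¹ := inv_pos.mpr hz
  have hch1 : 1 ≤ ch := by
    have h0 : 0 < ch := by rw [hch]; positivity
    nlinarith [sq_nonneg sh]
  have hL := F.hL
  have haL := abs_lt.mp F.haL
  have hLab := F.hLab
  have he := F.he
  have h1 : dd p (F.c0 + z • F.c1 + z⁻¹ • F.c2) = F.L / 2 * ch + F.a := by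
    apply dd_eq_of_sq
    · nlinarith
    · simp only [Prod.fst_add, Prod.smul_fst, smul_eq_mul, Prod.snd_add, Prod.smul_snd]
      rw [F.p_coord1, F.p_coord2]
      simp only [c1, c2]
      have e1 : F.c0.1 - F.L / 2 * F.ec - (F.c0.1 + z * ((F.a * F.ec - F.b * F.es) / 2) +
          z⁻¹ * ((F.a * F.ec + F.b * F.es) / 2)) =
          -(F.L / 2 * F.ec + F.a * ch * F.ec - F.b * sh * F.es) := by
        rw [hch, hsh]; ring
      have e2 : F.c0.2 - F.L / 2 * F.es - (F.c0.2 + z * ((F.a * F.es + F.b * F.ec) / 2) +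
          z⁻¹ * ((F.a * F.es - F.b * F.ec) / 2)) =
          -(F.L / 2 * F.es + F.a * ch * F.es + F.b * sh * F.ec) := by
        rw [hch, hsh]; ring
      rw [e1, e2]
      linear_combination ((F.L / 2 + F.a * ch) ^ 2 + F.b ^ 2 * sh ^ 2) * he -
        F.b ^ 2 * hcs + (1 / 4 - ch ^ 2 / 4) * hLab
  have h2 : dd q (F.c0 + z • F.c1 + z⁻¹ • F.c2) = F.L / 2 * ch - F.a := by
    apply dd_eq_of_sq
    · nlinarith
    · simp only [Prod.fst_add, Prod.smul_fst, smul_eq_mul, Prod.snd_add, Prod.smul_snd]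
      rw [F.q_coord1, F.q_coord2]
      simp only [c1, c2]
      have e1 : F.c0.1 + F.L / 2 * F.ec - (F.c0.1 + z * ((F.a * F.ec - F.b * F.es) / 2) +
          z⁻¹ * ((F.a * F.ec + F.b * F.es) / 2)) =
          -(-(F.L / 2 * F.ec) + F.a * ch * F.ec - F.b * sh * F.es) := by
        rw [hch, hsh]; ring
      have e2 : F.c0.2 + F.L / 2 * F.es - (F.c0.2 + z * ((F.a * F.es + F.b * F.ec) / 2) +
          z⁻¹ * ((F.a * F.es - F.b * F.ec) / 2)) =
          -(-(F.L / 2 * F.es) + F.a * ch * F.es + F.b * sh * F.ec) := by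
        rw [hch, hsh]; ring
      rw [e1, e2]
      linear_combination ((-(F.L / 2) + F.a * ch) ^ 2 + F.b ^ 2 * sh ^ 2) * he -
        F.b ^ 2 * hcs + (1 / 4 - ch ^ 2 / 4) * hLab
  have hh := F.hh
  rw [h1, h2]
  linarith

end Fr

/-- module PARAM -/
theorem param : PARAM := by
  intro p q h hnd
  obtain ⟨F⟩ := exists_fr p q h hnd
  exact ⟨F.c0, F.c1, F.c2, F.ze, F.det_ne, fun x hx => F.ze_spec x hx, fun z hz => F.param z hz⟩

/-- equation of a branch -/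
theorem branch_eq (p q x : Pl) (h : ℝ) (hx : dd p x - dd q x = h) :
    4 * h ^ 2 * ((x.1 - (p.1 + q.1) / 2) ^ 2 + (x.2 - (p.2 + q.2) / 2) ^ 2) -
      4 * ((q.1 - p.1) * (x.1 - (p.1 + q.1) / 2) + (q.2 - p.2) * (x.2 - (p.2 + q.2) / 2)) ^ 2 +
      h ^ 2 * ((q.1 - p.1) ^ 2 + (q.2 - p.2) ^ 2 - h ^ 2) = 0 := by
  have h1 := dd_sq p x
  have h2 := dd_sq q x
  set u := dd p x
  set w := dd q x
  set y1 := x.1 - (p.1 + q.1) / 2 with hy1
  set y2 := x.2 - (p.2 + q.2) / 2 with hy2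
  set v1 := q.1 - p.1 with hv1
  set v2 := q.2 - p.2 with hv2
  have h1' : u ^ 2 = (y1 + v1 / 2) ^ 2 + (y2 + v2 / 2) ^ 2 := by
    rw [h1, hy1, hy2, hv1, hv2]; ring
  have h2' : w ^ 2 = (y1 - v1 / 2) ^ 2 + (y2 - v2 / 2) ^ 2 := by
    rw [h2, hy1, hy2, hv1, hv2]; ring
  clear_value y1 y2 v1 v2 u w
  have h3 : (u + w) * h = 2 * (v1 * y1 + v2 * y2) := by
    rw [← hx]
    linear_combination h1' - h2'
  have h4 : 2 * u * h = h ^ 2 + 2 * (v1 * y1 + v2 * y2) := by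
    rw [← h3, ← hx]; ring
  have h5 : 4 * h ^ 2 * u ^ 2 = (h ^ 2 + 2 * (v1 * y1 + v2 * y2)) ^ 2 := by
    rw [← h4]; ring
  rw [h1'] at h5
  linear_combination h5

/-- two branches with infinitely many (six) common points have the same centre, directions -/
theorem same_of_coeffs {p q p' q' : Pl} {h h' : ℝ} (F : Fr p q h) (G : Fr p' q' h')
    (d1 d2 : ℝ) (hd1 : F.c0.1 = G.c0.1 + d1) (hd2 : F.c0.2 = G.c0.2 + d2)
    (B : ℝ → ℝ → ℝ → ℝ → ℝ)
    (hB : ∀ u1 u2 w1 w2, B u1 u2 w1 w2 = 4 * h' ^ 2 * (u1 * w1 + u2 * w2) -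
      4 * ((q'.1 - p'.1) * u1 + (q'.2 - p'.2) * u2) * ((q'.1 - p'.1) * w1 + (q'.2 - p'.2) * w2))
    (e4 : B F.c1.1 F.c1.2 F.c1.1 F.c1.2 = 0)
    (e3 : B d1 d2 F.c1.1 F.c1.2 = 0)
    (e2 : B d1 d2 d1 d2 + 2 * B F.c1.1 F.c1.2 F.c2.1 F.c2.2 +
      h' ^ 2 * ((q'.1 - p'.1) ^ 2 + (q'.2 - p'.2) ^ 2 - h' ^ 2) = 0)
    (e1 : B d1 d2 F.c2.1 F.c2.2 = 0)
    (e0 : B F.c2.1 F.c2.2 F.c2.1 F.c2.2 = 0) :
    (p' = p ∧ q' = q) ∨ (p' = q ∧ q' = p) := by
  have hdet := F.det_ne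
  have hv' : h' ^ 2 < (q'.1 - p'.1) ^ 2 + (q'.2 - p'.2) ^ 2 := by
    have h1 := G.hv1
    have h2 := G.hv2
    have h3 := G.haL
    have h4 := G.hh
    have h5 := G.he
    rw [← h4] at h3
    rw [h1, h2, show (G.L * G.ec) ^ 2 + (G.L * G.es) ^ 2 = G.L ^ 2 * (G.ec ^ 2 + G.es ^ 2) by ring,
      h5, mul_one, ← sq_abs h']
    exact pow_lt_pow_left₀ h3 (abs_nonneg h') two_ne_zero
  have hh'0 : h' ≠ 0 := by
    rw [G.hh]
    exact mul_ne_zero two_ne_zero G.ha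
  have hh'2 : 0 < h' ^ 2 := by positivity
  simp only [hB] at e4 e3 e2 e1 e0
  -- d = 0
  set v1 := q'.1 - p'.1 with hv1
  set v2 := q'.2 - p'.2 with hv2
  have hf1 : h' ^ 2 * d1 - (v1 * d1 + v2 * d2) * v1 = 0 := by
    have : (F.c1.1 * F.c2.2 - F.c1.2 * F.c2.1) * (h' ^ 2 * d1 - (v1 * d1 + v2 * d2) * v1) = 0 := by
      linear_combination (F.c2.2 / 4) * e3 - (F.c1.2 / 4) * e1
    exact (mul_eq_zero.mp this).resolve_left hdet
  have hf2 : h' ^ 2 * d2 - (v1 * d1 + v2 * d2) * v2 = 0 := by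
    have : (F.c1.1 * F.c2.2 - F.c1.2 * F.c2.1) * (h' ^ 2 * d2 - (v1 * d1 + v2 * d2) * v2) = 0 := by
      linear_combination (-F.c2.1 / 4) * e3 + (F.c1.1 / 4) * e1
    exact (mul_eq_zero.mp this).resolve_left hdet
  have hvd : v1 * d1 + v2 * d2 = 0 := by
    have : (v1 ^ 2 + v2 ^ 2 - h' ^ 2) * (v1 * d1 + v2 * d2) = 0 := by
      linear_combination -v1 * hf1 - v2 * hf2
    rcases mul_eq_zero.mp this with h1 | h1
    · exact absurd h1 (by linarith [hv'] |> fun (h : 0 < v1 ^ 2 + v2 ^ 2 - h' ^ 2) => h.ne')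
    · exact h1
  have hd10 : d1 = 0 := by
    rw [hvd] at hf1
    have : h' ^ 2 * d1 = 0 := by linarith
    exact (mul_eq_zero.mp this).resolve_left hh'2.ne'
  have hd20 : d2 = 0 := by
    rw [hvd] at hf2
    have : h' ^ 2 * d2 = 0 := by linarith
    exact (mul_eq_zero.mp this).resolve_left hh'2.ne'
  rw [hd10, hd20] at e2
  have he := F.he
  have ha := F.ha
  have hb := F.hb
  have hL := F.hL
  have hLab := F.hLab
  have hc11 : F.c1.1 = (F.a * F.ec - F.b * F.es) / 2 := rfl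
  have hc12 : F.c1.2 = (F.a * F.es + F.b * F.ec) / 2 := rfl
  have hc21 : F.c2.1 = (F.a * F.ec + F.b * F.es) / 2 := rfl
  have hc22 : F.c2.2 = (F.a * F.es - F.b * F.ec) / 2 := rfl
  rw [hc11, hc12] at e4
  rw [hc21, hc22] at e0
  rw [hc11, hc12, hc21, hc22] at e2
  set V1 := v1 * F.ec + v2 * F.es with hV1
  set V2 := -v1 * F.es + v2 * F.ec with hV2
  have hvV1 : v1 = V1 * F.ec - V2 * F.es := by
    rw [hV1, hV2]
    linear_combination -v1 * he
  have hvV2 : v2 = V1 * F.es + V2 * F.ec := by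
    rw [hV1, hV2]
    linear_combination -v2 * he
  have hVV : v1 ^ 2 + v2 ^ 2 = V1 ^ 2 + V2 ^ 2 := by
    rw [hV1, hV2]
    linear_combination (-v1 ^ 2 - v2 ^ 2) * he
  have g4 : h' ^ 2 * (F.a ^ 2 + F.b ^ 2) - (F.a * V1 + F.b * V2) ^ 2 = 0 := by
    rw [hV1, hV2]
    linear_combination e4 - h' ^ 2 * (F.a ^ 2 + F.b ^ 2) * he
  have g0 : h' ^ 2 * (F.a ^ 2 + F.b ^ 2) - (F.a * V1 - F.b * V2) ^ 2 = 0 := by
    rw [hV1, hV2]
    linear_combination e0 - h' ^ 2 * (F.a ^ 2 + F.b ^ 2) * he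
  have g2 : 2 * (h' ^ 2 * (F.a ^ 2 - F.b ^ 2) - (F.a * V1 + F.b * V2) * (F.a * V1 - F.b * V2)) +
      h' ^ 2 * (V1 ^ 2 + V2 ^ 2 - h' ^ 2) = 0 := by
    rw [← hVV, hV1, hV2]
    linear_combination e2 - 2 * h' ^ 2 * (F.a ^ 2 - F.b ^ 2) * he
  rw [hVV] at hv'
  have hprod : V1 * V2 = 0 := by
    have : (4 * F.a * F.b) * (V1 * V2) = 0 := by linear_combination g0 - g4
    rcases mul_eq_zero.mp this with h1 | h1
    · exact absurd h1 (mul_ne_zero (mul_ne_zero four_ne_zero ha) hb.ne')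
    · exact h1
  rcases mul_eq_zero.mp hprod with h0 | h0
  · exfalso
    rw [h0] at g4 g2 hv'
    have h1 : F.b ^ 2 * V2 ^ 2 = h' ^ 2 * (F.a ^ 2 + F.b ^ 2) := by linarith
    have h2 : 4 * h' ^ 2 * F.a ^ 2 + h' ^ 2 * (V2 ^ 2 - h' ^ 2) = 0 := by
      linear_combination g2 - 2 * h1
    have h3 : 0 < h' ^ 2 * (V2 ^ 2 - h' ^ 2) := mul_pos hh'2 (by linarith)
    have h4 : 0 < 4 * h' ^ 2 * F.a ^ 2 := by positivity
    linarith
  · rw [h0] at g4 g2 hv'
    have h1 : F.a ^ 2 * V1 ^ 2 = h' ^ 2 * (F.a ^ 2 + F.b ^ 2) := by linarith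
    have h2 : h' ^ 2 * (V1 ^ 2 - h' ^ 2 - 4 * F.b ^ 2) = 0 := by
      linear_combination g2 + 2 * h1
    have h3 : V1 ^ 2 - h' ^ 2 - 4 * F.b ^ 2 = 0 := (mul_eq_zero.mp h2).resolve_left hh'2.ne'
    have h4 : F.b ^ 2 * (4 * F.a ^ 2 - h' ^ 2) = 0 := by
      linear_combination h1 - F.a ^ 2 * h3
    have h5 : 4 * F.a ^ 2 - h' ^ 2 = 0 := (mul_eq_zero.mp h4).resolve_left (by positivity)
    have h6 : V1 ^ 2 = F.L ^ 2 := by linarith
    rw [h0] at hvV1 hvV2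
    have k1 : F.c0.1 = G.c0.1 := by rw [hd1, hd10, add_zero]
    have k2 : F.c0.2 = G.c0.2 := by rw [hd2, hd20, add_zero]
    simp only [Fr.c0] at k1 k2
    have m1 := F.hv1
    have m2 := F.hv2
    rcases sq_eq_sq_iff_eq_or_eq_neg.mp h6 with h7 | h7
    · left
      rw [h7] at hvV1 hvV2
      refine ⟨Prod.ext ?_ ?_, Prod.ext ?_ ?_⟩ <;> linarith
    · right
      rw [h7] at hvV1 hvV2
      refine ⟨Prod.ext ?_ ?_, Prod.ext ?_ ?_⟩ <;> linarith

/-- module TWO -/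
theorem two : TWO := by
  intro p q p' q' h h' hnd hnd' hne S hS
  by_contra hcard
  push Not at hcard
  apply hne
  obtain ⟨F⟩ := exists_fr p q h hnd
  obtain ⟨G⟩ := exists_fr p' q' h' hnd'
  set d1 := F.c0.1 - G.c0.1 with hd1
  set d2 := F.c0.2 - G.c0.2 with hd2
  set B : ℝ → ℝ → ℝ → ℝ → ℝ := fun u1 u2 w1 w2 => 4 * h' ^ 2 * (u1 * w1 + u2 * w2) -
      4 * ((q'.1 - p'.1) * u1 + (q'.2 - p'.2) * u2) * ((q'.1 - p'.1) * w1 + (q'.2 - p'.2) * w2)
    with hB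
  set A4 := B F.c1.1 F.c1.2 F.c1.1 F.c1.2 with hA4
  set A3 := 2 * B d1 d2 F.c1.1 F.c1.2 with hA3
  set A2 := B d1 d2 d1 d2 + 2 * B F.c1.1 F.c1.2 F.c2.1 F.c2.2 +
      h' ^ 2 * ((q'.1 - p'.1) ^ 2 + (q'.2 - p'.2) ^ 2 - h' ^ 2) with hA2
  set A1 := 2 * B d1 d2 F.c2.1 F.c2.2 with hA1
  set A0 := B F.c2.1 F.c2.2 F.c2.1 F.c2.2 with hA0
  open Polynomial in
  have key : (C A4 * X ^ 4 + C A3 * X ^ 3 + C A2 * X ^ 2 + C A1 * X + C A0 : ℝ[X]) = 0 := by
    apply Polynomial.eq_zero_of_natDegree_lt_card_of_eval_eq_zero' _ (S.image F.ze)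
    · intro z hz
      obtain ⟨x, hxS, rfl⟩ := Finset.mem_image.mp hz
      obtain ⟨hx1, hx2⟩ := hS x hxS
      obtain ⟨hzpos, hxe⟩ := F.ze_spec x hx1
      have hbr := branch_eq p' q' x h' hx2
      set z := F.ze x with hz
      have hx1 : x.1 = F.c0.1 + z * F.c1.1 + z⁻¹ * F.c2.1 := by
        conv_lhs => rw [hxe]
        simp
      have hx2 : x.2 = F.c0.2 + z * F.c1.2 + z⁻¹ * F.c2.2 := by
        conv_lhs => rw [hxe]
        simp
      have hy1 : x.1 - (p'.1 + q'.1) / 2 = d1 + z * F.c1.1 + z⁻¹ * F.c2.1 := by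
        rw [hx1, hd1]
        simp only [Fr.c0]
        ring
      have hy2 : x.2 - (p'.2 + q'.2) / 2 = d2 + z * F.c1.2 + z⁻¹ * F.c2.2 := by
        rw [hx2, hd2]
        simp only [Fr.c0]
        ring
      rw [hy1, hy2] at hbr
      simp only [eval_add, eval_mul, eval_C, eval_pow, eval_X]
      have hzz : z * z⁻¹ = 1 := mul_inv_cancel₀ hzpos.ne'
      have hw : z⁻¹ = 1 / z := by rw [one_div]
      rw [hA4, hA3, hA2, hA1, hA0]
      simp only [hB]
      rw [hw] at hbr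
      clear_value d1 d2
      have hz0 : z ≠ 0 := hzpos.ne'
      generalize F.c1.1 = a1 at *
      generalize F.c1.2 = a2 at *
      generalize F.c2.1 = b1 at *
      generalize F.c2.2 = b2 at *
      generalize q'.1 - p'.1 = v1 at *
      generalize q'.2 - p'.2 = v2 at *
      field_simp at hbr
      linear_combination hbr
    · have : (S.image F.ze).card = S.card := by
        apply Finset.card_image_of_injOn
        intro x hx y hy hxy
        have h1 := (F.ze_spec x (hS x hx).1).2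
        have h2 := (F.ze_spec y (hS y hy).1).2
        rw [h1, h2, hxy]
      rw [this]
      refine lt_of_le_of_lt ?_ hcard
      compute_degree
      all_goals norm_num
  have hc : ∀ k, (Polynomial.C A4 * Polynomial.X ^ 4 + Polynomial.C A3 * Polynomial.X ^ 3 +
      Polynomial.C A2 * Polynomial.X ^ 2 + Polynomial.C A1 * Polynomial.X +
      Polynomial.C A0 : Polynomial ℝ).coeff k = 0 := by
    intro k; rw [key]; simp
  have h4 : A4 = 0 := by simpa [Polynomial.coeff_X, Polynomial.coeff_C, Polynomial.coeff_X_pow] using hc 4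
  have h3 : A3 = 0 := by simpa [Polynomial.coeff_X, Polynomial.coeff_C, Polynomial.coeff_X_pow] using hc 3
  have h2 : A2 = 0 := by simpa [Polynomial.coeff_X, Polynomial.coeff_C, Polynomial.coeff_X_pow] using hc 2
  have h1 : A1 = 0 := by simpa [Polynomial.coeff_X, Polynomial.coeff_C, Polynomial.coeff_X_pow] using hc 1
  have h0 : A0 = 0 := by simpa [Polynomial.coeff_X, Polynomial.coeff_C, Polynomial.coeff_X_pow] using hc 0
  exact same_of_coeffs F G d1 d2 (by rw [hd1]; ring) (by rw [hd2]; ring) B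
    (fun u1 u2 w1 w2 => rfl) h4 (by linarith) h2 (by linarith) h0

end Pool.Agent.H30.Per
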